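import Pool.Agent.Helper92.ZH.Goals

/-!
# A determinant in a norm frame
-/

set_option autoImplicit false

namespace Pool.Agent.Helper31.ZH.DETN

open Pool.Agent.Helper29.BL Pool.Agent.Helper42.SG

variable {K : Type} [Field K] {v : AbsoluteValue K ℝ} {A : Type} [CommRing A] [Algebra K A]
  {N : A → ℝ → Prop}

theorem nzero (h : NFr v N) : N 0 0 := by
  have := h.const 0
  rwa [map_zero, map_zero] at this

theorem none' (h : NFr v N) : N 1 1 := by
  have := h.const 1
  rwa [map_one, map_one] at this

theorem nneg (h : NFr v N) {x : A} {T : ℝ} (hx : N x T) : N (-x) T := by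
  have h1 := h.mul _ _ _ _ (h.const (-1)) hx
  rwa [map_neg, map_one, v.map_neg, map_one, one_mul, neg_mul, one_mul] at h1

theorem nprod (h : NFr v N) {ι : Type} (S : Finset ι) (f : ι → A) (r : ι → ℝ)
    (hf : ∀ i, N (f i) (r i)) : N (∏ i ∈ S, f i) (∏ i ∈ S, r i) := by
  classical
  induction S using Finset.induction_on with
  | empty => simpa using none' h
  | insert i S hi ih =>
    rw [Finset.prod_insert hi, Finset.prod_insert hi]
    exact h.mul _ _ _ _ (hf i) ih

theorem nsum (h : NFr v N) {ι : Type} (S : Finset ι) (f : ι → A) {R : ℝ} (hR : 0 ≤ R)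
    (hf : ∀ i ∈ S, N (f i) R) : N (∑ i ∈ S, f i) (cst v S.card * R) := by
  classical
  unfold cst
  by_cases hv : IsNonarchimedean v
  · rw [if_pos hv, one_mul]
    induction S using Finset.induction_on with
    | empty => simpa using h.mono _ _ _ (nzero h) hR
    | insert i S hi ih =>
      rw [Finset.sum_insert hi]
      have h1 := h.max hv _ _ _ _ (hf i (Finset.mem_insert_self i S))
        (ih fun j hj => hf j (Finset.mem_insert_of_mem hj))
      rwa [max_self] at h1
  · rw [if_neg hv]
    induction S using Finset.induction_on with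
    | empty => simpa using nzero h
    | insert i S hi ih =>
      rw [Finset.sum_insert hi, Finset.card_insert_of_notMem hi]
      have h1 := h.add _ _ _ _ (hf i (Finset.mem_insert_self i S))
        (ih fun j hj => hf j (Finset.mem_insert_of_mem hj))
      refine h.mono _ _ _ h1 (le_of_eq ?_)
      push_cast
      ring

theorem t : Pool.Agent.Helper92.ZH.DETN := by
  classical
  intro K _ v A _ _ N hN s B k r hk hk1 hr hB
  have hR : 0 ≤ ∏ i, r i := Finset.prod_nonneg fun i _ => hr i
  obtain ⟨T, hT⟩ : ∃ T : Finset (Equiv.Perm (Fin s)),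
      T = Finset.univ.filter fun τ => ∀ i, B i (τ i) ≠ 0 := ⟨_, rfl⟩
  have hcard : T.card ≤ ∏ i, k i := by
    have h1 : T.card ≤ (Fintype.piFinset fun i => Finset.univ.filter fun j => B i j ≠ 0).card := by
      refine Finset.card_le_card_of_injOn (fun τ i => τ i) ?_ ?_
      · intro τ hτ
        rw [Finset.mem_coe, Fintype.mem_piFinset]
        intro i
        rw [hT] at hτ
        exact Finset.mem_filter.2 ⟨Finset.mem_univ _, (Finset.mem_filter.1 hτ).2 i⟩
      · intro τ _ τ' _ he
        exact Equiv.ext fun i => congrFun he i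
    refine h1.trans ?_
    rw [Fintype.card_piFinset]
    refine Finset.prod_le_prod' fun i _ => ?_
    refine le_trans (le_of_eq ?_) (hk i)
    rw [Nat.card_eq_fintype_card, Fintype.card_subtype]
  have hdet : B.det = ∑ τ ∈ T, ((Equiv.Perm.sign τ : ℤ) : A) * ∏ i, B i (τ i) := by
    rw [← Matrix.det_transpose, Matrix.det_apply', hT]
    symm
    refine Finset.sum_subset (Finset.filter_subset _ _) fun τ _ hτ => ?_
    rw [Finset.mem_filter] at hτ
    simp only [Finset.mem_univ, true_and, not_forall, not_not] at hτ
    obtain ⟨i, hi⟩ := hτ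
    rw [Finset.prod_eq_zero (Finset.mem_univ i) hi, mul_zero]
  rw [hdet]
  have h1 := nsum hN T (fun τ => ((Equiv.Perm.sign τ : ℤ) : A) * ∏ i, B i (τ i)) hR
    fun τ _ => by
      have h2 : N (∏ i, B i (τ i)) (∏ i, r i) := nprod hN Finset.univ _ _ fun i => hB i (τ i)
      rcases Int.units_eq_one_or (Equiv.Perm.sign τ) with h3 | h3
      · rw [h3]
        simpa using h2
      · rw [h3]
        simpa using nneg hN h2
  refine hN.mono _ _ _ h1 ?_
  rw [Finset.prod_mul_distrib]
  refine mul_le_mul_of_nonneg_right ?_ hR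
  unfold cst
  by_cases hv : IsNonarchimedean v
  · simp only [if_pos hv, Finset.prod_const_one, le_refl]
  · simp only [if_neg hv]
    exact_mod_cast hcard

end Pool.Agent.Helper31.ZH.DETN
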